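import Pool.Agent.Helper99.EX.TruncC
import Pool.Agent.Helper22.OV.Shift
import Pool.Agent.Helper92.GC.D2

/-!
# AO, block F: the set where the high blocks are small is closed; Fubini

A violation of the bound for one block at one radius and one centre is an open condition on the oval (uniform convergence of the support
function and of its second derivative). So `for every ω, almost every x` gives `for almost every x, almost every ω`.
-/

open MeasureTheory Real Set Filter Topology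

set_option autoImplicit false

namespace Pool.Agent.Helper92.AO

open Pool.Agent.Helper22.AE (ee rho IsSupp ft dom area dom_compact area_scale ee_norm)
open Pool.Agent.Helper92.GC (dt sqa)
open Pool.Agent.Helper22.OV (shf shf_smooth shf_rho)
open Pool.Agent.Helper99.EX (ft_sub99)

/-- the blocks `n ∈ N` of all shifts of the oval with support function `H` at all radii in `[A, B]` are at most `bnd n` -/
def HiG (N : Set ℕ) (A B : ℝ) (bnd : ℕ → ℝ) (H : ℝ → ℝ) : Prop :=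
  ∀ s : ℝ × ℝ, IsSupp (shf H s) → ∀ n ∈ N, ∀ R ∈ Icc A B, ∀ c : ℝ × ℝ,
    ‖∑ k ∈ sqa (2 ^ n), ft (fun t => R * shf H s t) k * ee (dt k c)‖ ≤ bnd n

private lemma mul_suppF {G : ℝ → ℝ} (hG : IsSupp G) {r : ℝ} (hr : 0 < r) : IsSupp (fun θ => r * G θ) := by
  have := Pool.Agent.Helper22.LP.rot_isSupp hG hr 0
  simpa using this

private theorem area_monoF {A B : ℝ → ℝ} (hB : IsSupp B) (h : ∀ θ, A θ ≤ B θ) : area A ≤ area B :=
  ENNReal.toReal_mono (dom_compact hB).measure_lt_top.ne (measure_mono fun _ hp θ => (hp θ).trans (h θ))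

/-- Fourier transforms of close ovals are close -/
theorem ft_close {G H : ℝ → ℝ} (hG : IsSupp G) (hH : IsSupp H) {κ : ℝ} (h0 : 0 ≤ κ) (h1 : κ < 1)
    (h : ∀ t, |H t - G t| ≤ κ * G t) (k : ℤ × ℤ) : ‖ft H k - ft G k‖ ≤ 7 * κ * area G := by
  have hU : IsSupp (fun θ => (1 + κ) * G θ) := mul_suppF hG (by linarith)
  have hL : IsSupp (fun θ => (1 - κ) * G θ) := mul_suppF hG (by linarith)
  have aU : area (fun θ => (1 + κ) * G θ) = (1 + κ) ^ 2 * area G := area_scale hG (by linarith)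
  have aL : area (fun θ => (1 - κ) * G θ) = (1 - κ) ^ 2 * area G := area_scale hG (by linarith)
  have e1 : ∀ θ, H θ ≤ (1 + κ) * G θ := fun θ => by
    have := (abs_le.1 (h θ)).2
    linarith
  have e2 : ∀ θ, (1 - κ) * G θ ≤ H θ := fun θ => by
    have := (abs_le.1 (h θ)).1
    linarith
  have e3 : ∀ θ, G θ ≤ (1 + κ) * G θ := fun θ => by
    have := mul_nonneg h0 (hG.pos θ).le
    linarith
  have f1 := ft_sub99 hH hU e1 k
  have f2 := ft_sub99 hG hU e3 k
  have f3 := area_monoF hH e2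
  rw [aU] at f1 f2
  rw [aL] at f3
  have hA0 : 0 ≤ area G := ENNReal.toReal_nonneg
  have e : ft H k - ft G k = (ft (fun θ => (1 + κ) * G θ) k - ft G k) - (ft (fun θ => (1 + κ) * G θ) k - ft H k) := by ring
  rw [e]
  refine (norm_sub_le _ _).trans ?_
  have g1 : κ * (κ * area G) ≤ 1 * (κ * area G) := mul_le_mul_of_nonneg_right h1.le (mul_nonneg h0 hA0)
  nlinarith

/-- a positive continuous periodic function has a positive lower bound -/
private lemma per_low {f : ℝ → ℝ} (hc : Continuous f) (hp : Function.Periodic f (2 * π)) (h : ∀ t, 0 < f t) : ∃ m : ℝ, 0 < m ∧ ∀ t, m ≤ f t := by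
  obtain ⟨x, _, hx⟩ := (isCompact_Icc (a := (0 : ℝ)) (b := 2 * π)).exists_isMinOn ⟨0, by constructor <;> positivity⟩ hc.continuousOn
  refine ⟨f x, h x, fun t => ?_⟩
  obtain ⟨s, hs, he⟩ := hp.exists_mem_Ico₀ (by positivity) t
  rw [he]
  exact hx ⟨hs.1, hs.2.le⟩

private lemma rho_contF {G : ℝ → ℝ} (h : ContDiff ℝ 2 G) : Continuous (rho G) :=
  Pool.Agent.Helper22.OV.o3_rho_cont h

private lemma deriv_perF {f : ℝ → ℝ} (h : Function.Periodic f (2 * π)) : Function.Periodic (deriv f) (2 * π) := by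
  intro s
  have h3 : (fun x => f (x + 2 * π)) = f := funext h
  calc deriv f (s + 2 * π) = deriv (fun x => f (x + 2 * π)) s := (deriv_comp_add_const _ _ _).symm
    _ = _ := by rw [h3]

private lemma rho_perF {f : ℝ → ℝ} (h : Function.Periodic f (2 * π)) : Function.Periodic (rho f) (2 * π) := by
  intro s
  unfold rho
  rw [h s, deriv_perF (deriv_perF h) s]

/-- the set of the good parameters is closed -/
theorem hiG_closed {Z : Type*} [TopologicalSpace Z] {F : Z → ℝ → ℝ} (hs : ∀ z, ContDiff ℝ 2 (F z))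
    (hp : ∀ z, Function.Periodic (F z) (2 * π))
    (hc : ∀ z₀ : Z, ∀ ε : ℝ, 0 < ε → ∀ᶠ z in 𝓝 z₀, ∀ t, |F z t - F z₀ t| < ε ∧ |rho (F z) t - rho (F z₀) t| < ε)
    (N : Set ℕ) {A B : ℝ} (hA : 0 < A) (bnd : ℕ → ℝ) : IsClosed {z | HiG N A B bnd (F z)} := by
  rw [← isOpen_compl_iff, isOpen_iff_mem_nhds]
  intro z₀ hz₀
  simp only [mem_compl_iff, mem_ofPred_eq] at hz₀
  unfold HiG at hz₀
  push Not at hz₀
  obtain ⟨s, hS, n, hn, R, hR, c, hv⟩ := hz₀
  have hR0 : 0 < R := lt_of_lt_of_le hA hR.1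
  obtain ⟨m1, hm1, hm1'⟩ := per_low hS.smooth.continuous hS.per hS.pos
  obtain ⟨m2, hm2, hm2'⟩ := per_low (rho_contF hS.smooth) (rho_perF hS.per) hS.rho_pos
  obtain ⟨D, hD⟩ : ∃ D : ℝ, D = ((sqa (2 ^ n)).card : ℝ) * (7 * area (fun t => R * shf (F z₀) s t)) := ⟨_, rfl⟩
  have hD0 : 0 ≤ D := by
    rw [hD]
    have : 0 ≤ area (fun t => R * shf (F z₀) s t) := ENNReal.toReal_nonneg
    positivity
  obtain ⟨v, hvd⟩ : ∃ v : ℝ, v = ‖∑ k ∈ sqa (2 ^ n), ft (fun t => R * shf (F z₀) s t) k * ee (dt k c)‖ - bnd n := ⟨_, rfl⟩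
  have hv0 : 0 < v := by
    rw [hvd]
    linarith
  obtain ⟨κ, hκ0, hκ1, hκD⟩ : ∃ κ : ℝ, 0 < κ ∧ κ < 1 ∧ κ * D < v := by
    refine ⟨min (1 / 2) (v / (2 * (D + 1))), lt_min (by norm_num) (by positivity), lt_of_le_of_lt (min_le_left _ _) (by norm_num), ?_⟩
    calc min (1 / 2) (v / (2 * (D + 1))) * D ≤ v / (2 * (D + 1)) * D := mul_le_mul_of_nonneg_right (min_le_right _ _) hD0
      _ < v := by
        rw [div_mul_eq_mul_div, div_lt_iff₀ (by positivity)]
        nlinarith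
  filter_upwards [hc z₀ (min (κ * m1) (min (m1 / 2) (m2 / 2))) (by positivity)] with z hz
  have hd : ∀ t, shf (F z) s t - shf (F z₀) s t = F z t - F z₀ t := by
    intro t
    unfold shf
    ring
  have hSz : IsSupp (shf (F z) s) := by
    refine ⟨shf_smooth s (hs z), ?_, ?_, ?_⟩
    · intro t
      unfold shf
      rw [hp z t, cos_add_two_pi, sin_add_two_pi]
    · intro t
      have h1 := (abs_lt.1 (hz t).1).1
      have h2 : min (κ * m1) (min (m1 / 2) (m2 / 2)) ≤ m1 / 2 := (min_le_right _ _).trans (min_le_left _ _)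
      have h3 := hd t
      have h4 := hm1' t
      linarith
    · intro t
      have h1 := (abs_lt.1 (hz t).2).1
      have h2 : min (κ * m1) (min (m1 / 2) (m2 / 2)) ≤ m2 / 2 := (min_le_right _ _).trans (min_le_right _ _)
      have h3 := shf_rho (H := F z) s (hs z) t
      have h4 := shf_rho (H := F z₀) s (hs z₀) t
      have h5 := hm2' t
      unfold rho at h1 h5
      linarith
  simp only [mem_compl_iff, mem_ofPred_eq]
  intro hcon
  have h1 := hcon s hSz n hn R hR c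
  have hG : IsSupp (fun t => R * shf (F z₀) s t) := mul_suppF hS hR0
  have hH : IsSupp (fun t => R * shf (F z) s t) := mul_suppF hSz hR0
  have hcl : ∀ t, |R * shf (F z) s t - R * shf (F z₀) s t| ≤ κ * (R * shf (F z₀) s t) := by
    intro t
    rw [← mul_sub, abs_mul, abs_of_pos hR0, hd t]
    have h2 : |F z t - F z₀ t| ≤ κ * m1 := (hz t).1.le.trans (min_le_left _ _)
    have h3 := mul_le_mul_of_nonneg_left (hm1' t) hκ0.le
    have h4 := mul_le_mul_of_nonneg_left (h2.trans h3) hR0.le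
    linarith
  have h2 : ‖∑ k ∈ sqa (2 ^ n), (ft (fun t => R * shf (F z) s t) k - ft (fun t => R * shf (F z₀) s t) k) * ee (dt k c)‖ ≤ κ * D := by
    refine (norm_sum_le _ _).trans ?_
    have h3 : ∀ k ∈ sqa (2 ^ n), ‖(ft (fun t => R * shf (F z) s t) k - ft (fun t => R * shf (F z₀) s t) k) * ee (dt k c)‖ ≤
        7 * κ * area (fun t => R * shf (F z₀) s t) := by
      intro k _
      rw [norm_mul, ee_norm, mul_one]
      exact ft_close hG hH hκ0.le hκ1 hcl k
    refine (Finset.sum_le_card_nsmul _ _ _ h3).trans (le_of_eq ?_)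
    rw [nsmul_eq_mul, hD]
    ring
  have e : ∑ k ∈ sqa (2 ^ n), ft (fun t => R * shf (F z₀) s t) k * ee (dt k c) =
      ∑ k ∈ sqa (2 ^ n), ft (fun t => R * shf (F z) s t) k * ee (dt k c) -
      ∑ k ∈ sqa (2 ^ n), (ft (fun t => R * shf (F z) s t) k - ft (fun t => R * shf (F z₀) s t) k) * ee (dt k c) := by
    rw [← Finset.sum_sub_distrib]
    refine Finset.sum_congr rfl fun k _ => ?_
    ring
  rw [e] at hvd
  have h4 := norm_sub_le (∑ k ∈ sqa (2 ^ n), ft (fun t => R * shf (F z) s t) k * ee (dt k c))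
    (∑ k ∈ sqa (2 ^ n), (ft (fun t => R * shf (F z) s t) k - ft (fun t => R * shf (F z₀) s t) k) * ee (dt k c))
  linarith

/-- Fubini for events `eventually in p` -/
theorem fub_ev {Ω X : Type*} [MeasurableSpace Ω] [MeasurableSpace X] {P : Measure Ω} {Q : Measure X} [SFinite P] [SFinite Q]
    {S : ℕ → Set (Ω × X)} (hS : ∀ p, MeasurableSet (S p)) (h : ∀ ω, ∀ᵐ x ∂Q, ∃ p₀ : ℕ, ∀ p : ℕ, p₀ ≤ p → (ω, x) ∈ S p) :
    ∀ᵐ x ∂Q, ∀ᵐ ω ∂P, ∃ p₀ : ℕ, ∀ p : ℕ, p₀ ≤ p → (ω, x) ∈ S p := by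
  have hm : MeasurableSet {z : Ω × X | ∃ p₀ : ℕ, ∀ p : ℕ, p₀ ≤ p → (z.1, z.2) ∈ S p} := by
    have e : {z : Ω × X | ∃ p₀ : ℕ, ∀ p : ℕ, p₀ ≤ p → (z.1, z.2) ∈ S p} = ⋃ p₀ : ℕ, ⋂ p : ℕ, ⋂ _ : p₀ ≤ p, S p := by
      ext z
      simp
    rw [e]
    exact MeasurableSet.iUnion fun _ => MeasurableSet.iInter fun p => MeasurableSet.iInter fun _ => hS p
  exact (Measure.ae_ae_comm (p := fun ω x => ∃ p₀ : ℕ, ∀ p : ℕ, p₀ ≤ p → (ω, x) ∈ S p) hm).1 (ae_of_all _ h)

/-- the high blocks: from `for every ω, almost every x` to `for almost every x, almost every ω` -/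
theorem fub_hi {Ω X : Type*} [TopologicalSpace Ω] [TopologicalSpace X] [MeasurableSpace Ω] [MeasurableSpace X] [OpensMeasurableSpace (Ω × X)]
    {P : Measure Ω} {Q : Measure X} [SFinite P] [SFinite Q] {F : Ω × X → ℝ → ℝ} (hs : ∀ z, ContDiff ℝ 2 (F z))
    (hp : ∀ z, Function.Periodic (F z) (2 * π))
    (hc : ∀ z₀ : Ω × X, ∀ ε : ℝ, 0 < ε → ∀ᶠ z in 𝓝 z₀, ∀ t, |F z t - F z₀ t| < ε ∧ |rho (F z) t - rho (F z₀) t| < ε)
    (N : ℕ → Set ℕ) {A B : ℕ → ℝ} (hA : ∀ p, 0 < A p) (bnd : ℕ → ℕ → ℝ)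
    (h : ∀ ω, ∀ᵐ x ∂Q, ∃ p₀ : ℕ, ∀ p : ℕ, p₀ ≤ p → HiG (N p) (A p) (B p) (bnd p) (F (ω, x))) :
    ∀ᵐ x ∂Q, ∀ᵐ ω ∂P, ∃ p₀ : ℕ, ∀ p : ℕ, p₀ ≤ p → HiG (N p) (A p) (B p) (bnd p) (F (ω, x)) :=
  fub_ev (S := fun p => {z | HiG (N p) (A p) (B p) (bnd p) (F z)}) (fun p => (hiG_closed hs hp hc (N p) (hA p) (bnd p)).measurableSet) h

/-- the continuity hypothesis from the topology of uniform convergence -/
theorem near_of_cont {Z : Type*} [TopologicalSpace Z] {v : ℝ → ℝ} (hv : ContDiff ℝ 2 v) {F : Z → ℝ → ℝ} (hs : ∀ z, ContDiff ℝ 2 (F z))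
    (h0 : Continuous fun z => UniformFun.ofFun (iteratedDeriv 0 (F z))) (h2 : Continuous fun z => UniformFun.ofFun (iteratedDeriv 2 (F z))) :
    ∀ z₀ : Z, ∀ ε : ℝ, 0 < ε → ∀ᶠ z in 𝓝 z₀, ∀ t, |(v t + F z t) - (v t + F z₀ t)| < ε ∧
      |rho (fun s => v s + F z s) t - rho (fun s => v s + F z₀ s) t| < ε := by
  intro z₀ ε hε
  have g0 := h0.tendsto z₀
  have g2 := h2.tendsto z₀
  rw [UniformFun.tendsto_iff_tendstoUniformly, Metric.tendstoUniformly_iff] at g0 g2
  filter_upwards [g0 (ε / 2) (by linarith), g2 (ε / 2) (by linarith)] with z a b t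
  have ha := a t
  have hb := b t
  rw [dist_comm, Real.dist_eq] at ha hb
  simp only [Function.comp_apply, UniformFun.toFun_ofFun, iteratedDeriv_zero] at ha
  simp only [Function.comp_apply, UniformFun.toFun_ofFun] at hb
  have e2 : ∀ f : ℝ → ℝ, iteratedDeriv 2 f = deriv (deriv f) := fun f => by
    rw [iteratedDeriv_succ, iteratedDeriv_one]
  rw [e2, e2] at hb
  have er : ∀ z, rho (fun s => v s + F z s) t = rho v t + (F z t + deriv (deriv (F z)) t) := by
    intro z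
    have d1 : ∀ f : ℝ → ℝ, ContDiff ℝ 2 f → Differentiable ℝ f := fun f hf => hf.differentiable (by norm_num)
    have d2 : ∀ f : ℝ → ℝ, ContDiff ℝ 2 f → Differentiable ℝ (deriv f) := fun f hf => by
      have h1 : ContDiff ℝ 1 (deriv f) := by
        have h := (contDiff_succ_iff_deriv (n := 1) (f := f)).1 (by
          rw [one_add_one_eq_two]
          exact hf)
        exact h.2.2
      exact h1.differentiable (by norm_num)
    have e1 : deriv (fun s => v s + F z s) = fun s => deriv v s + deriv (F z) s := by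
      funext s
      exact deriv_fun_add (d1 v hv s) (d1 _ (hs z) s)
    have e3 : deriv (deriv (fun s => v s + F z s)) t = deriv (deriv v) t + deriv (deriv (F z)) t := by
      rw [e1]
      exact deriv_fun_add (d2 v hv t) (d2 _ (hs z) t)
    unfold rho
    rw [e3]
    ring
  constructor
  · have e : (v t + F z t) - (v t + F z₀ t) = F z t - F z₀ t := by ring
    rw [e]
    linarith
  · rw [er, er]
    have e : rho v t + (F z t + deriv (deriv (F z)) t) - (rho v t + (F z₀ t + deriv (deriv (F z₀)) t)) =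
        (F z t - F z₀ t) + (deriv (deriv (F z)) t - deriv (deriv (F z₀)) t) := by ring
    rw [e]
    refine (abs_add_le _ _).trans_lt ?_
    linarith

end Pool.Agent.Helper92.AO
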