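import Pool.Agent.Helper60.AO.Defs
import Pool.Agent.Helper54.AO.H1
import Pool.Agent.Helper27.AO.H3

/-!
# AO-H3b: two tuples in the same cell of the real moments differ by short vectors near the direction of the arc
-/

open MeasureTheory Real Set Filter Topology

set_option autoImplicit false

namespace Pool.Agent.Helper92.AO

open Pool.Agent.Helper22.AE Pool.Agent.Helper60.AD Pool.Agent.Helper60.AO
open Pool.Agent.Helper43.AD (arc_child)
open Pool.Agent.Helper54.AO (sep_real)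
open Pool.Agent.Helper27.AO (arc_geom tt_sep)

private lemma z0_norm (M s j : ℕ) : ‖(starRingEnd ℂ) (z0 M s j)‖ = 1 := by
  rw [RCLike.norm_conj]
  exact Complex.norm_exp_ofReal_mul_I _

private lemma cz_sub (k k' : ℤ × ℤ) : cz (k - k') = cz k - cz k' := by
  unfold cz
  apply Complex.ext
  · simp
  · simp

/-- unit vectors in the right half plane: the real parts are controlled by the imaginary parts -/
private lemma re_le {w w' : ℂ} (hw : ‖w‖ = 1) (hw' : ‖w'‖ = 1) (h1 : 1 / 2 ≤ w.re) (h2 : 1 / 2 ≤ w'.re) :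
    |w.re - w'.re| ≤ 2 * |w.im - w'.im| := by
  have e1 : w.re ^ 2 + w.im ^ 2 = 1 := by
    have h := Complex.sq_norm w
    rw [hw, Complex.normSq_apply] at h
    linarith
  have e2 : w'.re ^ 2 + w'.im ^ 2 = 1 := by
    have h := Complex.sq_norm w'
    rw [hw', Complex.normSq_apply] at h
    linarith
  have h3 : |w.im| ≤ 1 := by
    rw [← hw]
    exact Complex.abs_im_le_norm w
  have h4 : |w'.im| ≤ 1 := by
    rw [← hw']
    exact Complex.abs_im_le_norm w'
  have e3 : (w.re - w'.re) * (w.re + w'.re) = -((w.im - w'.im) * (w.im + w'.im)) := by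
    linear_combination e1 - e2
  have h5 : |w.re - w'.re| * (w.re + w'.re) = |w.im - w'.im| * |w.im + w'.im| := by
    have h6 : |(w.re - w'.re) * (w.re + w'.re)| = |w.im - w'.im| * |w.im + w'.im| := by
      rw [e3, abs_neg, abs_mul]
    rwa [abs_mul, abs_of_pos (a := w.re + w'.re) (by linarith)] at h6
  have h7 : |w.im + w'.im| ≤ 2 := (abs_add_le _ _).trans (by linarith)
  calc |w.re - w'.re| ≤ |w.re - w'.re| * (w.re + w'.re) := le_mul_of_one_le_right (abs_nonneg _) (by linarith)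
    _ = |w.im - w'.im| * |w.im + w'.im| := h5
    _ ≤ |w.im - w'.im| * 2 := mul_le_mul_of_nonneg_left h7 (abs_nonneg _)
    _ = 2 * |w.im - w'.im| := by ring

theorem same_cell {J n M s j : ℕ} (hJ : 1 ≤ J) (hM : 1 ≤ M) {a : Fin J → Fin M} (ha : a ∈ gapT J M) {A : ℝ} (hA : 0 ≤ A)
    {k k' : Fin J → ℤ × ℤ} (hk : k ∈ Fintype.piFinset (Ch n M s j a)) (hk' : k' ∈ Fintype.piFinset (Ch n M s j a))
    (hS : ∀ m < 2 * J, |Sm M s j k m - Sm M s j k' m| ≤ A) (i : Fin J) :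
    ‖cz (k i - k' i)‖ ≤ CJ J * (M : ℝ) ^ (4 * J) * A ∧
      |(cz (k i - k' i) * (starRingEnd ℂ) (z0 M s j)).im| ≤ CJ J * (M : ℝ) ^ (4 * J) * A / (M : ℝ) ^ s := by
  have hM1 : (1 : ℝ) ≤ M := by exact_mod_cast hM
  have hM0 : (0 : ℝ) < M := by linarith
  have hMs : (1 : ℝ) ≤ (M : ℝ) ^ s := one_le_pow₀ hM1
  have hMs0 : (0 : ℝ) < (M : ℝ) ^ s := by linarith
  have hK : (0 : ℝ) < 2 ^ n := by positivity
  have hkA : ∀ i, k i ∈ Ch n M s j a i := Fintype.mem_piFinset.mp hk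
  have hkA' : ∀ i, k' i ∈ Ch n M s j a i := Fintype.mem_piFinset.mp hk'
  have hpar : ∀ i, ∀ q ∈ Ch n M s j a i, q ∈ arcSet (blk n) (8 * M ^ s) j := fun i q hq => arc_child (blk n) hM (a i).2 hq
  have hblk : ∀ i, ∀ q ∈ Ch n M s j a i, (2 : ℝ) ^ n ≤ nk q ∧ nk q ≤ 2 * 2 ^ n := by
    intro i q hq
    have h3 : q ∈ blk n := (Finset.mem_filter.mp hq).1
    have h4 := (Finset.mem_filter.mp h3).2
    rw [pow_succ, mul_comm] at h4
    exact ⟨h4.1, h4.2.le⟩
  have habs : ∀ i, ∀ q ∈ Ch n M s j a i, |tt M s j q| ≤ 1 := by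
    intro i q hq
    obtain ⟨g1, g2, -⟩ := arc_geom hM (hpar i q hq)
    rw [abs_of_nonneg g1]
    exact g2
  obtain ⟨ht, hr⟩ := sep_real hJ hK hA (τ := 1 / (4 * (M : ℝ))) (by positivity) (by
      rw [div_le_one (by positivity)]
      linarith) (fun i => nk (k i)) (fun i => nk (k' i)) (fun i => tt M s j (k i)) (fun i => tt M s j (k' i))
    (fun i => habs i _ (hkA i)) (fun i => habs i _ (hkA' i)) (fun i => hblk i _ (hkA i)) (fun i => hblk i _ (hkA' i))
    (fun i i' hi => ⟨tt_sep hM ha hi (hkA i) (hkA i'), tt_sep hM ha hi (hkA i) (hkA' i'), tt_sep hM ha hi (hkA' i) (hkA i'),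
      tt_sep hM ha hi (hkA' i) (hkA' i')⟩)
    (fun m hm => by
      have := hS m hm
      unfold Sm at this
      rwa [← Finset.sum_sub_distrib] at this) i
  -- the constants
  obtain ⟨B, hB⟩ : ∃ B : ℝ, B = (J : ℝ) * 16 ^ J * (4 * (M : ℝ)) ^ (4 * J - 4) * A := ⟨_, rfl⟩
  have hJ1 : (1 : ℝ) ≤ J := by exact_mod_cast hJ
  have hB0 : 0 ≤ B := by rw [hB]; positivity
  have h4M : (1 : ℝ) ≤ 4 * M := by linarith
  have hrB : |nk (k i) - nk (k' i)| ≤ 5 * B := by
    refine hr.trans (le_of_eq ?_)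
    rw [hB, one_div, inv_pow, div_inv_eq_mul]
    ring
  have htB : 2 ^ n * |tt M s j (k i) - tt M s j (k' i)| ≤ 2 * B := by
    have h1 := mul_le_mul_of_nonneg_left ht hK.le
    refine h1.trans ?_
    have e : (2 : ℝ) ^ n * (2 * 4 ^ J * A / (2 ^ n * (1 / (4 * (M : ℝ))) ^ (2 * J - 2))) = 2 * (4 ^ J * (4 * (M : ℝ)) ^ (2 * J - 2) * A) := by
      rw [one_div, inv_pow]
      field_simp
    rw [e, hB]
    have h2 : (4 : ℝ) ^ J ≤ J * 16 ^ J := by
      calc (4 : ℝ) ^ J ≤ 16 ^ J := pow_le_pow_left₀ (by norm_num) (by norm_num) _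
        _ = 1 * 16 ^ J := (one_mul _).symm
        _ ≤ J * 16 ^ J := mul_le_mul_of_nonneg_right hJ1 (by positivity)
    have h3 : (4 * (M : ℝ)) ^ (2 * J - 2) ≤ (4 * (M : ℝ)) ^ (4 * J - 4) := pow_le_pow_right₀ h4M (by omega)
    have h5 := mul_le_mul h2 h3 (by positivity) (by positivity)
    have h6 := mul_le_mul_of_nonneg_right h5 hA
    linarith
  have hBC : 22 * B ≤ CJ J * (M : ℝ) ^ (4 * J) * A := by
    have h1 : (4 * (M : ℝ)) ^ (4 * J - 4) ≤ 256 ^ J * (M : ℝ) ^ (4 * J) := by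
      calc (4 * (M : ℝ)) ^ (4 * J - 4) ≤ (4 * (M : ℝ)) ^ (4 * J) := pow_le_pow_right₀ h4M (by omega)
        _ = 256 ^ J * (M : ℝ) ^ (4 * J) := by
          rw [mul_pow, pow_mul]
          norm_num
    have h2 : (4096 : ℝ) ^ J = 16 ^ J * 256 ^ J := by
      rw [← mul_pow]
      norm_num
    rw [hB]
    unfold CJ
    rw [h2]
    have h3 : (J : ℝ) * 16 ^ J * (4 * (M : ℝ)) ^ (4 * J - 4) * A ≤ (J : ℝ) * 16 ^ J * (256 ^ J * (M : ℝ) ^ (4 * J)) * A :=
      mul_le_mul_of_nonneg_right (mul_le_mul_of_nonneg_left h1 (by positivity)) hA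
    have h4 : 0 ≤ (J : ℝ) * 16 ^ J * (256 ^ J * (M : ℝ) ^ (4 * J)) * A := by positivity
    calc _ ≤ 22 * ((J : ℝ) * 16 ^ J * (256 ^ J * (M : ℝ) ^ (4 * J)) * A) := by linarith
      _ ≤ 40 * ((J : ℝ) * 16 ^ J * (256 ^ J * (M : ℝ) ^ (4 * J)) * A) := by linarith
      _ = _ := by ring
  -- the vectors in the coordinates of the arc
  obtain ⟨c, hc⟩ : ∃ c : ℂ, c = (starRingEnd ℂ) (z0 M s j) := ⟨_, rfl⟩
  have hcn : ‖c‖ = 1 := by rw [hc]; exact z0_norm M s j
  obtain ⟨w, hw⟩ : ∃ w : ℂ, w = zk (k i) * c := ⟨_, rfl⟩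
  obtain ⟨w', hw'⟩ : ∃ w' : ℂ, w' = zk (k' i) * c := ⟨_, rfl⟩
  have hwn : ‖w‖ = 1 := by rw [hw, norm_mul, zk_norm, hcn, one_mul]
  have hwn' : ‖w'‖ = 1 := by rw [hw', norm_mul, zk_norm, hcn, one_mul]
  have hre : 1 / 2 ≤ w.re := by
    rw [hw, hc]
    exact (arc_geom hM (hpar i _ (hkA i))).2.2
  have hre' : 1 / 2 ≤ w'.re := by
    rw [hw', hc]
    exact (arc_geom hM (hpar i _ (hkA' i))).2.2
  have him : tt M s j (k i) = (M : ℝ) ^ s * w.im := by
    rw [hw, hc]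
    rfl
  have him' : tt M s j (k' i) = (M : ℝ) ^ s * w'.im := by
    rw [hw', hc]
    rfl
  have hcz : cz (k i - k' i) * c = (nk (k i) : ℂ) * w - (nk (k' i) : ℂ) * w' := by
    rw [cz_sub, ← nk_zk, ← nk_zk, hw, hw']
    ring
  rw [← hc]
  set r : ℝ := nk (k i) with hrd
  set r' : ℝ := nk (k' i) with hrd'
  have hr2 : 0 ≤ r ∧ r ≤ 2 * 2 ^ n := ⟨norm_nonneg _, (hblk i _ (hkA i)).2⟩
  obtain ⟨d, hd⟩ : ∃ d : ℝ, d = |tt M s j (k i) - tt M s j (k' i)| := ⟨_, rfl⟩
  rw [← hd] at htB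
  have hd0 : 0 ≤ d := by rw [hd]; exact abs_nonneg _
  have hdim : (M : ℝ) ^ s * |w.im - w'.im| = d := by
    rw [hd, him, him', ← mul_sub, abs_mul, abs_of_pos hMs0]
  have hdim1 : |w.im - w'.im| ≤ d := by
    rw [← hdim]
    exact le_mul_of_one_le_left (abs_nonneg _) hMs
  have hrd2 : r * d ≤ 4 * B := by
    have := mul_le_mul_of_nonneg_right hr2.2 hd0
    linarith
  have hrw1 : |w'.re| ≤ 1 := by
    rw [← hwn']
    exact Complex.abs_re_le_norm w'
  have himp : |(cz (k i - k' i) * c).im| * (M : ℝ) ^ s ≤ 9 * B := by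
    rw [hcz]
    have e : ((r : ℂ) * w - (r' : ℂ) * w').im = r * (w.im - w'.im) + (r - r') * w'.im := by
      simp only [Complex.sub_im, Complex.mul_im, Complex.ofReal_re, Complex.ofReal_im]
      ring
    rw [e]
    have h1 : |(r * (w.im - w'.im) + (r - r') * w'.im)| ≤ r * |w.im - w'.im| + |r - r'| * |w'.im| := by
      refine (abs_add_le _ _).trans ?_
      rw [abs_mul, abs_mul, abs_of_nonneg hr2.1]
    have h2 := mul_le_mul_of_nonneg_right h1 hMs0.le
    refine h2.trans ?_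
    have h3 : |w'.im| * (M : ℝ) ^ s ≤ 1 := by
      have h5 := habs i _ (hkA' i)
      rw [him', abs_mul, abs_of_pos hMs0] at h5
      linarith
    have e2 : (r * |w.im - w'.im| + |r - r'| * |w'.im|) * (M : ℝ) ^ s =
        r * ((M : ℝ) ^ s * |w.im - w'.im|) + |r - r'| * (|w'.im| * (M : ℝ) ^ s) := by ring
    rw [e2, hdim]
    have h6 : |r - r'| * (|w'.im| * (M : ℝ) ^ s) ≤ 5 * B * 1 :=
      mul_le_mul hrB h3 (by positivity) (by positivity)
    linarith
  have hrep : |(cz (k i - k' i) * c).re| ≤ 13 * B := by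
    rw [hcz]
    have e : ((r : ℂ) * w - (r' : ℂ) * w').re = r * (w.re - w'.re) + (r - r') * w'.re := by
      simp only [Complex.sub_re, Complex.mul_re, Complex.ofReal_re, Complex.ofReal_im]
      ring
    rw [e]
    have h1 : |(r * (w.re - w'.re) + (r - r') * w'.re)| ≤ r * |w.re - w'.re| + |r - r'| * |w'.re| := by
      refine (abs_add_le _ _).trans ?_
      rw [abs_mul, abs_mul, abs_of_nonneg hr2.1]
    refine h1.trans ?_
    have h2 := re_le hwn hwn' hre hre'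
    have h3 : r * |w.re - w'.re| ≤ r * (2 * d) := mul_le_mul_of_nonneg_left (h2.trans (by linarith)) hr2.1
    have h4 : |r - r'| * |w'.re| ≤ 5 * B * 1 := mul_le_mul hrB hrw1 (abs_nonneg _) (by positivity)
    linarith
  constructor
  · have h1 : ‖cz (k i - k' i)‖ = ‖cz (k i - k' i) * c‖ := by rw [norm_mul, hcn, mul_one]
    rw [h1]
    refine (Complex.norm_le_abs_re_add_abs_im _).trans ?_
    have h2 : |(cz (k i - k' i) * c).im| ≤ 9 * B := by
      refine le_trans ?_ himp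
      exact le_mul_of_one_le_right (abs_nonneg _) hMs
    linarith
  · rw [le_div_iff₀ hMs0]
    linarith

end Pool.Agent.Helper92.AO
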