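import Pool.Agent.Helper92.AO.F
import Pool.Agent.Helper99.EY.Trunc2

/-!
# AO: the bridge from the good high blocks (`HiG`, eventually) to the hypothesis `SBh` of the truncated formula; Fubini
-/

open MeasureTheory Real Set Filter Topology

set_option autoImplicit false

namespace Pool.Agent.Helper92.AO

open Pool.Agent.Helper22.AE (ee rho IsSupp ft)
open Pool.Agent.Helper92.GC (dt sqa)
open Pool.Agent.Helper22.OV (shf)
open Pool.Agent.Helper99.EY (SBh)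

/-- the high blocks of `H` at the scale `2^p` are good -/
def HGp (T : ℕ → ℕ) (e : ℝ) (p : ℕ) (H : ℝ → ℝ) : Prop :=
  HiG {n | T p < n ∧ (n : ℝ) ≤ (1 / 2 + e) * p} (2 ^ p / 2) (4 * 2 ^ p) (fun n => sqrt (2 ^ p) / ((n : ℝ) + 1) ^ 2) H

theorem sbh_of_hgp {T : ℕ → ℕ} {e : ℝ} {H : ℝ → ℝ} (h : ∃ p₀ : ℕ, ∀ p : ℕ, p₀ ≤ p → HGp T e p H) : SBh T e H := by
  obtain ⟨p₀, h⟩ := h
  intro v hv
  refine ⟨1, p₀, fun p hp n hn hn2 R hR c => ?_⟩
  have h1 := h p hp v hv n ⟨hn, hn2⟩ R hR c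
  refine h1.trans ?_
  rw [one_mul]
  exact le_add_of_nonneg_right zero_le_one

theorem sbh_of_ev {T : ℕ → ℕ} {e : ℝ} {H : ℝ → ℝ} (h : ∀ᶠ p : ℕ in atTop, HGp T e p H) : SBh T e H :=
  sbh_of_hgp (eventually_atTop.1 h)

/-- Fubini: for every `y` almost every `x` gives for almost every `x` almost every `y` -/
theorem fub_sbh {X Y : Type*} [TopologicalSpace X] [TopologicalSpace Y] [MeasurableSpace X] [MeasurableSpace Y] [OpensMeasurableSpace (X × Y)]
    {P : Measure X} {Q : Measure Y} [SFinite P] [SFinite Q] {F : X × Y → ℝ → ℝ} (hs : ∀ z, ContDiff ℝ 2 (F z))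
    (hp : ∀ z, Function.Periodic (F z) (2 * π))
    (h0 : Continuous fun z => UniformFun.ofFun (iteratedDeriv 0 (F z))) (h2 : Continuous fun z => UniformFun.ofFun (iteratedDeriv 2 (F z)))
    {v : ℝ → ℝ} (hv : ContDiff ℝ 2 v) (hvp : Function.Periodic v (2 * π)) {T : ℕ → ℕ} {e : ℝ}
    (h : ∀ y, ∀ᵐ x ∂P, ∀ᶠ p : ℕ in atTop, HGp T e p (fun t => v t + F (x, y) t)) :
    ∀ᵐ x ∂P, ∀ᵐ y ∂Q, SBh T e (fun t => v t + F (x, y) t) := by
  have hcl : ∀ p, IsClosed {z : X × Y | HGp T e p (fun t => v t + F z t)} := fun p =>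
    hiG_closed (fun z => hv.add (hs z)) (fun z t => congrArg₂ (· + ·) (hvp t) (hp z t)) (near_of_cont hv hs h0 h2) _ (by positivity) _
  have hm : MeasurableSet {z : X × Y | ∃ p₀ : ℕ, ∀ p : ℕ, p₀ ≤ p → HGp T e p (fun t => v t + F (z.1, z.2) t)} := by
    have e : {z : X × Y | ∃ p₀ : ℕ, ∀ p : ℕ, p₀ ≤ p → HGp T e p (fun t => v t + F (z.1, z.2) t)} =
        ⋃ p₀ : ℕ, ⋂ p : ℕ, ⋂ _ : p₀ ≤ p, {z : X × Y | HGp T e p (fun t => v t + F z t)} := by
      ext z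
      simp
    rw [e]
    exact MeasurableSet.iUnion fun _ => MeasurableSet.iInter fun p => MeasurableSet.iInter fun _ => (hcl p).measurableSet
  have h1 := (Measure.ae_ae_comm (μ := P) (ν := Q)
    (p := fun x y => ∃ p₀ : ℕ, ∀ p : ℕ, p₀ ≤ p → HGp T e p (fun t => v t + F (x, y) t)) hm).2
    (ae_of_all _ fun y => (h y).mono fun x hx => eventually_atTop.1 hx)
  filter_upwards [h1] with x hx
  filter_upwards [hx] with y hy
  exact sbh_of_hgp hy

end Pool.Agent.Helper92.AO
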