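import Pool.Agent.Helper92.AO.Br
import Pool.Agent.Helper81.AO.Fin
import Pool.Agent.Helper27.AO.Prev
import Pool.Agent.Helper27.AO.Ser
import Pool.Agent.Helper22.AI.Cont
import Pool.Agent.Helper22.AI.WReg

/-!
# AO: the final assembly (second, independent writing)
-/

open MeasureTheory Real Set Filter Topology

set_option autoImplicit false

namespace Pool.Agent.Helper92.AO

open scoped ContDiff
open Pool.Agent.Helper93.AO (Om PP)
open Pool.Agent.Helper93.EX (nu1 Law Law4)
open Pool.Agent.Helper27.AO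
open Pool.Agent.Helper81.AO (theAmp eD sD sD_rap high_ae)
open Pool.Agent.Helper99.EY (SBh)

/-- the laws of the random oval with one base, under the hypothesis on the high blocks -/
def LawHyp : Prop := ∀ H₀ : ℝ → ℝ, ContDiff ℝ 2 H₀ → Function.Periodic H₀ (2 * π) → ∀ σ : ℝ, σ = 1 ∨ σ = -1 →
  ∀ᵐ y ∂(PP nu1), SBh theAmp.T eD (@Pool.Agent.Helper22.AI.Hx theAmp H₀ 1 y) →
    (∀ t, 0 < @Pool.Agent.Helper22.AI.Hx theAmp H₀ 1 y t + deriv (deriv (@Pool.Agent.Helper22.AI.Hx theAmp H₀ 1 y)) t) →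
    Law σ (@Pool.Agent.Helper22.AI.Hx theAmp H₀ 1 y) ∧ Law4 σ (@Pool.Agent.Helper22.AI.Hx theAmp H₀ 1 y)

/-- the random function -/
noncomputable def FF (z : (ℕ → unitInterval × unitInterval) × Om) (t : ℝ) : ℝ := As sD z.1 t + @Pool.Agent.Helper22.AI.WW theAmp z.2 t

theorem FF_smooth (z : (ℕ → unitInterval × unitInterval) × Om) : ContDiff ℝ ∞ (FF z) :=
  (As_smooth sD_rap z.1).add (@Pool.Agent.Helper22.AI.WW_top theAmp z.2)

theorem FF_per (z : (ℕ → unitInterval × unitInterval) × Om) : Function.Periodic (FF z) (2 * π) := fun t =>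
  congrArg₂ (· + ·) (As_per sD z.1 t) (@Pool.Agent.Helper22.AI.WW_per theAmp z.2 t)

theorem FF_cont (j : ℕ) : Continuous fun z => UniformFun.ofFun (iteratedDeriv j (FF z)) :=
  sum_cont (fun x => As_cd sD_rap x j) (fun y => @Pool.Agent.Helper22.AI.WW_smooth_all theAmp y j) (As_cont sD_rap j)
    (@Pool.Agent.Helper22.AI.WW_cont_unif theAmp j)

theorem prev_final_of (hL : LawHyp) {k : ℕ∞} {V : Type} [TopologicalSpace V] [MeasurableSpace V] [BorelSpace V] {val : V → ℝ → ℝ}
    (h : IsPerI k val) (hk : 2 ≤ k) : FinS k val := by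
  refine prev_fin_prod (Measure.infinitePi fun _ : ℕ => (volume : Measure (unitInterval × unitInterval))) (PP nu1) FF FF_smooth FF_per FF_cont ?_ h hk
  intro v hv hvp
  have hF2 : ∀ z, ContDiff ℝ 2 (FF z) := fun z => contDiff_infty.1 (FF_smooth z) 2
  -- the high blocks
  have h1 := fub_sbh (P := Measure.infinitePi fun _ : ℕ => (volume : Measure (unitInterval × unitInterval))) (Q := PP nu1) (F := FF) hF2 FF_per (FF_cont 0) (FF_cont 2)
    hv hvp (T := theAmp.T) (e := eD) (fun y => by
      have hW2 : ContDiff ℝ 2 (fun t => v t + @Pool.Agent.Helper22.AI.WW theAmp y t) :=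
        hv.add (@Pool.Agent.Helper22.AI.WW_smooth_all theAmp y 2)
      have hWp : Function.Periodic (fun t => v t + @Pool.Agent.Helper22.AI.WW theAmp y t) (2 * π) := fun t =>
        congrArg₂ (· + ·) (hvp t) (@Pool.Agent.Helper22.AI.WW_per theAmp y t)
      filter_upwards [high_ae hW2 hWp] with x hx
      obtain ⟨p₀, hp₀⟩ := hx
      refine eventually_atTop.2 ⟨p₀, fun p hp => ?_⟩
      have e : (fun t => v t + FF (x, y) t) = fun t => (fun t => v t + @Pool.Agent.Helper22.AI.WW theAmp y t) t + As sD x t := by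
        funext t
        unfold FF
        ring
      rw [e]
      exact hp₀ p hp)
  filter_upwards [h1] with x hx
  have hA2 : ContDiff ℝ 2 (fun t => v t + As sD x t) := hv.add (As_cd sD_rap x 2)
  have hAp : Function.Periodic (fun t => v t + As sD x t) (2 * π) := fun t => congrArg₂ (· + ·) (hvp t) (As_per sD x t)
  filter_upwards [hx, hL _ hA2 hAp 1 (Or.inl rfl), hL _ hA2 hAp (-1) (Or.inr rfl)] with y h2 h3 h4 hpos
  have e : @Pool.Agent.Helper22.AI.Hx theAmp (fun t => v t + As sD x t) 1 y = fun t => v t + FF (x, y) t := by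
    funext t
    unfold Pool.Agent.Helper22.AI.Hx FF
    ring
  rw [e] at h3 h4
  intro σ hσ
  rcases hσ with rfl | rfl
  · exact h3 h2 hpos
  · exact h4 h2 hpos

end Pool.Agent.Helper92.AO
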