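import Pool.Agent.Helper92.AO.Fin
import Pool.Agent.Helper22.AI.Law

/-!
# AO: the final assembly, complete (second, independent writing)
-/

open MeasureTheory Real Set Filter Topology

set_option autoImplicit false

namespace Pool.Agent.Helper92.AO

open Pool.Agent.Helper27.AO
open Pool.Agent.Helper81.AO (theAmp eD eD_pos eD_le)

theorem lawHyp : LawHyp := by
  intro H₀ h2 hp σ hσ
  filter_upwards [@Pool.Agent.Helper22.AI.as_law_h theAmp H₀ h2 hp 1 one_ne_zero σ hσ eD eD_pos eD_le,
    @Pool.Agent.Helper22.AI.as_law4_h theAmp H₀ h2 hp 1 one_ne_zero σ hσ eD eD_pos eD_le] with y h3 h4 h5 h6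
  exact ⟨h3 h5 h6, h4 h5 h6⟩

/-- the final form for all `2 ≤ k ≤ ∞` -/
theorem prev_final {k : ℕ∞} {V : Type} [TopologicalSpace V] [MeasurableSpace V] [BorelSpace V] {val : V → ℝ → ℝ}
    (h : IsPerI k val) (hk : 2 ≤ k) : FinS k val := prev_final_of lawHyp h hk

end Pool.Agent.Helper92.AO
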